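import Pool.Agent.H44.DG.Targets

/-! Module LOC: the regions of a good state only touch the triangle and the inner vertices. -/

namespace Pool.Agent.H29.DG.LOC

open Pool.Agent.H44.DG

variable {V : Type}

lemma mem_inner {n i : ℕ} (hi : i < n) : i < 3 ∨ i ∈ inner n := by
  by_cases h : i < 3
  · exact Or.inl h
  · right
    unfold Pool.Agent.H44.DG.inner
    rw [List.mem_drop_iff_getElem]
    exact ⟨i - 3, by simp; omega, by simp; omega⟩

lemma inR_real {c : Ctx V} {L : LF} {x : V} (h : InR (real c L) x) : ∃ y ∈ L, InR (real1 c y) x := by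
  obtain ⟨Φ, hΦ, w, hw, hx⟩ := h
  rw [real, Multiset.mem_bind] at hΦ
  obtain ⟨y, hy, hΦy⟩ := hΦ
  exact ⟨y, hy, Φ, hΦy, w, hw, hx⟩

lemma adj_real {c : Ctx V} {L : LF} {y : Tag × Cycle ℕ} (hy : y ∈ L) {a b : V}
    (h : Adj (real1 c y) a b) : Adj (real c L) a b := by
  obtain ⟨Φ, hΦ, w, hw, hx⟩ := h
  exact ⟨Φ, Multiset.mem_bind.2 ⟨y, hy, hΦ⟩, w, hw, hx⟩

lemma isDart_map {w : Cycle ℕ} {i j : ℕ} (f : ℕ → V) (h : IsDart w i j) :
    IsDart (w.map f) (f i) (f j) := by
  obtain ⟨l, rfl⟩ := h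
  exact ⟨l.map f, rfl⟩

lemma mem_map {w : Cycle ℕ} {f : ℕ → V} {x : V} (h : x ∈ w.map f) : ∃ i ∈ w, f i = x := by
  induction w using Quotient.inductionOn with
  | _ l =>
    have h' : x ∈ l.map f := h
    rw [List.mem_map] at h'
    exact h'

lemma map_mem {w : Cycle ℕ} {f : ℕ → V} {i : ℕ} (h : i ∈ w) : f i ∈ w.map f := by
  induction w using Quotient.inductionOn with
  | _ l =>
    show f i ∈ l.map f
    exact List.mem_map_of_mem h

/-- the general statement for pictures -/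
lemma loc_real {c : Ctx V} {n : ℕ} {L : LF} (hlab : ∀ x ∈ L, ∀ i ∈ x.2, i < n)
    (hT : ∀ i w, (Tag.T i, w) ∈ L → Loc (fun v => v ∈ w.map c.f) (· ∈ c.WS i) (c.FS i))
    (hR : ∀ k w, (Tag.R k, w) ∈ L → (∀ u ∈ c.FL k, ∀ v ∈ u, v ∈ c.WL k) ∧
      ∀ v, InR (c.FI k) v → v ∈ c.WL k)
    (hs : LAdj L 0 1 ∧ LAdj L 1 2 ∧ LAdj L 2 0) :
    Loc (fun x => x ∈ (↑[c.f 0, c.f 1, c.f 2] : Cycle V))
      (fun x => x ∈ (((inner n).map c.f : Multiset V) + vs c L)) (real c L) := by
  have key : ∀ y ∈ L, ∀ x, x ∈ y.2.map c.f → x ∈ (↑[c.f 0, c.f 1, c.f 2] : Cycle V) ∨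
      x ∈ (((inner n).map c.f : Multiset V) + vs c L) := by
    intro y hy x hx
    obtain ⟨i, hi, rfl⟩ := mem_map hx
    rcases mem_inner (hlab y hy i hi) with h | h
    · left
      have : i = 0 ∨ i = 1 ∨ i = 2 := by omega
      rcases this with rfl | rfl | rfl <;> simp
    · right
      rw [Multiset.mem_add]
      left
      rw [Multiset.mem_coe]
      exact List.mem_map_of_mem h
  have key2 : ∀ y ∈ L, ∀ x ∈ vs1 c y, x ∈ (((inner n).map c.f : Multiset V) + vs c L) := by
    intro y hy x hx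
    rw [Multiset.mem_add]
    right
    exact Multiset.mem_bind.2 ⟨y, hy, hx⟩
  constructor
  · intro x hx
    obtain ⟨y, hy, hxy⟩ := inR_real hx
    rcases y with ⟨t, w⟩
    cases t with
    | E =>
      obtain ⟨Φ, hΦ, w', hw', hx'⟩ := hxy
      have h1 : Φ = {w.map c.f} := by simpa [real1] using hΦ
      rw [h1, Multiset.mem_singleton] at hw'
      exact key _ hy x (hw' ▸ hx')
    | R k =>
      obtain ⟨Φ, hΦ, w', hw', hx'⟩ := hxy
      have hΦ' : Φ ∈ (w.map c.f ::ₘ c.FL k) ::ₘ c.FI k := hΦ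
      rw [Multiset.mem_cons] at hΦ'
      rcases hΦ' with h1 | h1
      · rw [h1, Multiset.mem_cons] at hw'
        rcases hw' with h2 | h2
        · exact key _ hy x (h2 ▸ hx')
        · exact Or.inr (key2 _ hy x ((hR k w hy).1 w' h2 x hx'))
      · exact Or.inr (key2 _ hy x ((hR k w hy).2 x ⟨Φ, h1, w', hw', hx'⟩))
    | T i =>
      rcases (hT i w hy).1 x hxy with h | h
      · exact key _ hy x h
      · exact Or.inr (key2 _ hy x h)
  · have adj : ∀ i j, LAdj L i j → c.f i ≠ c.f j → Adj (real c L) (c.f i) (c.f j) := by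
      rintro i j ⟨y, hy, hd⟩ hne
      rw [mem_cdarts, mem_cdarts] at hd
      refine adj_real hy ?_
      rcases y with ⟨t, w⟩
      have hd' : IsDart (w.map c.f) (c.f i) (c.f j) ∨ IsDart (w.map c.f) (c.f j) (c.f i) :=
        hd.imp (isDart_map c.f) (isDart_map c.f)
      cases t with
      | E => exact ⟨{w.map c.f}, by simp [real1], w.map c.f, by simp, hd'⟩
      | R k =>
        exact ⟨w.map c.f ::ₘ c.FL k, Multiset.mem_cons_self _ _, w.map c.f,
          Multiset.mem_cons_self _ _, hd'⟩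
      | T m =>
        refine (hT m w hy).2 _ _ ?_ ?_ hne
        · exact hd'.elim IsDart.mem_left IsDart.mem_right
        · exact hd'.elim IsDart.mem_right IsDart.mem_left
    intro x y hx hy hxy
    simp only [Cycle.mem_coe_iff, List.mem_cons, List.not_mem_nil, or_false] at hx hy
    obtain ⟨h01, h12, h20⟩ := hs
    rcases hx with rfl | rfl | rfl <;> rcases hy with rfl | rfl | rfl
    · exact absurd rfl hxy
    · exact adj 0 1 h01 hxy
    · exact (adj 2 0 h20 hxy.symm).symm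
    · exact (adj 0 1 h01 hxy.symm).symm
    · exact absurd rfl hxy
    · exact adj 1 2 h12 hxy
    · exact adj 2 0 h20 hxy
    · exact (adj 1 2 h12 hxy.symm).symm
    · exact absurd rfl hxy

lemma open_facts : ∀ S ∈ openList, (∀ i ∈ S.2.1, i < S.1) ∧ (∀ x ∈ S.2.2, ∀ i ∈ x.2, i < S.1) ∧
    (∀ x ∈ S.2.2, ¬ ∃ k ∈ [x.1], ∃ m, k = Tag.R m) ∧
    LAdj (toLF ((.R 0, S.2.1) :: S.2.2)) 0 1 ∧ LAdj (toLF ((.R 0, S.2.1) :: S.2.2)) 1 2 ∧
    LAdj (toLF ((.R 0, S.2.1) :: S.2.2)) 2 0 := by
  intro S hS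
  simp only [openList, List.mem_cons, List.not_mem_nil, or_false] at hS
  rcases hS with rfl | rfl | rfl | rfl | rfl | rfl
  all_goals
    refine ⟨by decide, by decide, ?_, by decide, by decide, by decide⟩
    simp

lemma open_lab {n : ℕ} {r : List ℕ} {base : List (Tag × List ℕ)} (hS : (n, r, base) ∈ openList) :
    ∀ x ∈ toLF ((.R 0, r) :: base), ∀ i ∈ x.2, i < n := by
  obtain ⟨h1, h2, -⟩ := open_facts _ hS
  intro x hx i hi
  rw [toLF, Multiset.mem_coe, List.mem_map] at hx
  obtain ⟨y, hy, rfl⟩ := hx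
  rw [List.mem_cons] at hy
  rcases hy with rfl | hy
  · exact h1 i hi
  · exact h2 y hy i hi

lemma open_R {n : ℕ} {r : List ℕ} {base : List (Tag × List ℕ)} (hS : (n, r, base) ∈ openList)
    {k : ℕ} {w : Cycle ℕ} (h : (Tag.R k, w) ∈ toLF ((.R 0, r) :: base)) : k = 0 := by
  obtain ⟨-, -, h3, -⟩ := open_facts _ hS
  rw [toLF, Multiset.mem_coe, List.mem_map] at h
  obtain ⟨y, hy, he⟩ := h
  rw [List.mem_cons] at hy
  rcases hy with rfl | hy
  · have := congrArg Prod.fst he
    simp only [Tag.R.injEq] at this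
    exact this.symm
  · exact absurd ⟨y.1, by simp, k, (congrArg Prod.fst he)⟩ (h3 y hy)

lemma open_T {r : List ℕ} {base : List (Tag × List ℕ)} {i : ℕ} {w : Cycle ℕ}
    (h : (Tag.T i, w) ∈ toLF ((.R 0, r) :: base)) : (Tag.T i, w) ∈ toLF base := by
  rw [toLF, Multiset.mem_coe, List.mem_map] at h ⊢
  obtain ⟨y, hy, he⟩ := h
  rw [List.mem_cons] at hy
  rcases hy with rfl | hy
  · have := congrArg Prod.fst he
    simp at this
  · exact ⟨y, hy, he⟩

lemma floats_mem {fl : Region V} {W : Multiset V} (h : Floats fl W) : ∀ u ∈ fl, ∀ v ∈ u, v ∈ W := by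
  induction h with
  | nil => intro u hu; simp at hu
  | k1 x fl W _ ih =>
    intro u hu v hv
    rw [Multiset.mem_cons] at hu
    rw [Multiset.mem_cons]
    rcases hu with rfl | hu
    · left
      simpa using hv
    · exact Or.inr (ih u hu v hv)
  | k2 x y fl W _ ih =>
    intro u hu v hv
    rw [Multiset.mem_cons] at hu
    rw [Multiset.mem_cons, Multiset.mem_cons]
    rcases hu with rfl | hu
    · have : v = x ∨ v = y := by simpa using hv
      tauto
    · exact Or.inr (Or.inr (ih u hu v hv))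

theorem pf_LOC : T_LOC := by
  intro V o W F h
  induction h with
  | comp n L hL c hT ih =>
    refine ⟨?_, c.f 0, c.f 1, c.f 2, rfl⟩
    exact loc_real hL.lab (fun i w hw => (ih i w hw).1) (fun k w hw => absurd rfl (hL.noR _ hw k))
      hL.sides
  | openA n r base hS c hT hfl hFI ih =>
    refine ⟨?_, c.f 0, c.f 1, c.f 2, rfl⟩
    refine loc_real (open_lab hS) (fun i w hw => (ih i w (open_T hw)).1) (fun k w hw => ?_)
      (open_facts _ hS).2.2.2
    obtain rfl := open_R hS hw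
    refine ⟨floats_mem hfl, fun v hv => ?_⟩
    rw [hFI] at hv
    exact absurd hv (inR_zero v)
  | openB n r base hS c hT x y z W' hFL hWL hB ih ihB =>
    refine ⟨?_, c.f 0, c.f 1, c.f 2, rfl⟩
    refine loc_real (open_lab hS) (fun i w hw => (ih i w (open_T hw)).1) (fun k w hw => ?_)
      (open_facts _ hS).2.2.2
    obtain rfl := open_R hS hw
    rw [hFL, hWL]
    refine ⟨fun u hu v hv => ?_, fun v hv => ?_⟩
    · rw [Multiset.mem_singleton] at hu
      subst hu
      have : v = x ∨ v = y ∨ v = z := by simpa using hv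
      simp only [Multiset.mem_cons]
      tauto
    · simp only [Multiset.mem_cons]
      rcases ihB.1.1 v hv with h | h
      · have : v = z ∨ v = y ∨ v = x := by simpa using h
        tauto
      · exact Or.inr (Or.inr (Or.inr h))

end Pool.Agent.H29.DG.LOC
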