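import Pool.Agent.H44.DG.Targets

/-! Module NOD: the nodup hypothesis passes to the parts. -/

namespace Pool.Agent.H29.DG.NOD

open Pool.Agent.H44.DG

lemma range_split {n : ℕ} (h : 3 ≤ n) : List.range n = [0, 1, 2] ++ inner n := by
  unfold Pool.Agent.H44.DG.inner
  conv_lhs => rw [← List.take_append_drop 3 (List.range n)]
  congr 1
  rw [List.take_range, min_eq_left h]
  rfl

theorem pf_NOD : T_NOD := by
  intro V c n L hn hnd hlab htri
  have e1 : (↑[c.f 0, c.f 1, c.f 2] : Cycle V).toMultiset +
      (((inner n).map c.f : Multiset V) + vs c L) =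
      ((List.range n).map c.f : Multiset V) + vs c L := by
    rw [range_split hn, ← add_assoc]
    congr 1
  rw [e1] at hnd
  refine ⟨hnd, ?_, ?_⟩
  · intro i w hw
    refine Multiset.nodup_of_le (add_le_add ?_ ?_) hnd
    · obtain ⟨a, b, d, hab, hbd, hda, rfl⟩ := htri _ hw i rfl
      have ha := hlab _ hw a (by simp)
      have hb := hlab _ hw b (by simp)
      have hd := hlab _ hw d (by simp)
      change ((([a, b, d] : List ℕ).map c.f : List V) : Multiset V) ≤ _
      rw [← Multiset.map_coe, ← Multiset.map_coe]
      refine Multiset.map_le_map ?_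
      rw [Multiset.le_iff_subset]
      · intro x hx
        simp only [Multiset.mem_coe, List.mem_cons, List.not_mem_nil, or_false] at hx
        simp only [Multiset.mem_coe, List.mem_range]
        rcases hx with rfl | rfl | rfl <;> assumption
      · simp only [Multiset.coe_nodup, List.nodup_cons, List.mem_cons, List.not_mem_nil, or_false,
          not_or, not_false_eq_true, List.nodup_nil, and_true]
        exact ⟨⟨hab, fun h => hda h.symm⟩, hbd⟩
    · exact Multiset.le_bind L hw
  · intro k w hw
    refine Multiset.nodup_of_le ?_ hnd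
    refine le_trans ?_ (Multiset.le_add_left _ _)
    exact Multiset.le_bind (f := vs1 c) L hw

end Pool.Agent.H29.DG.NOD
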